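import Pool.Agent.NGM.StmtsK

/-! Row BFO of squad NGM: the invariant form on the harmonic Lipschitz functions. -/

set_option autoImplicit false

namespace Pool.Agent.NGM.H92

open scoped Pointwise Classical
open Filter Topology

universe u

variable {Q : Type u} [Group Q] {K : Finset Q}

lemma fixn {f : Q → ℝ} (h : av K (av K f) = f) (n : ℕ) : (av K)^[2 * n] f = f := by
  rw [Function.iterate_mul]
  exact Function.iterate_fixed h n

lemma enn (hW : WkStmt.{u}) (hK : GenSet K) (n : ℕ) {F : Q → ℝ} (hF : ∀ x, 0 ≤ F x) (y : Q) :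
    0 ≤ (av K)^[n] F y := by
  rw [(hW Q K hK n).2.2.2.1]
  exact Finset.sum_nonneg fun x _ => mul_nonneg ((hW Q K hK n).1 x) (hF _)

lemma eab (hW : WkStmt.{u}) (hK : GenSet K) (n : ℕ) (f h : Q → ℝ) :
    |(av K)^[n] (fun x => f x * h x) 1| ≤
      (av K)^[n] (fun x => f x ^ 2) 1 + (av K)^[n] (fun x => h x ^ 2) 1 := by
  have hw := (hW Q K hK n).1
  have hf := (hW Q K hK n).2.2.2.1
  rw [hf, hf, hf, ← Finset.sum_add_distrib]
  refine (Finset.abs_sum_le_sum_abs _ _).trans (Finset.sum_le_sum fun x _ => ?_)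
  rw [abs_mul, abs_of_nonneg (hw x), ← mul_add]
  refine mul_le_mul_of_nonneg_left ?_ (hw x)
  rw [abs_le]
  constructor <;> nlinarith [sq_nonneg (f (1 * x) + h (1 * x)), sq_nonneg (f (1 * x) - h (1 * x)),
    sq_nonneg (f (1 * x)), sq_nonneg (h (1 * x))]

lemma exq (hW : WkStmt.{u}) (hK : GenSet K) (n : ℕ) {f : Q → ℝ} (hf : f ∈ VV K) (g : Q) :
    (av K)^[2 * n] (fun x => f x ^ 2) g =
      f g ^ 2 + (av K)^[2 * n] (fun x => tr g f x ^ 2) 1 := by
  have hfo := (hW Q K hK (2 * n)).2.2.2.1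
  have hs := (hW Q K hK (2 * n)).2.2.2.2.1
  have ht : (av K)^[2 * n] (tr g f) 1 = 0 := by
    rw [fixn (tr_mem hK g hf).2.1]
    exact (tr_mem hK g hf).1
  rw [hfo] at ht
  rw [hfo, hfo]
  have h1 : ∑ x ∈ K ^ (2 * n), wk K (2 * n) x * f (g * x) ^ 2 =
      f g ^ 2 * ∑ x ∈ K ^ (2 * n), wk K (2 * n) x +
      2 * f g * ∑ x ∈ K ^ (2 * n), wk K (2 * n) x * tr g f (1 * x) +
      ∑ x ∈ K ^ (2 * n), wk K (2 * n) x * tr g f (1 * x) ^ 2 := by
    rw [Finset.mul_sum, Finset.mul_sum, ← Finset.sum_add_distrib, ← Finset.sum_add_distrib]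
    refine Finset.sum_congr rfl fun x _ => ?_
    simp only [tr, one_mul]
    ring
  rw [h1, hs, ht]
  ring

theorem bfo (hW : WkStmt.{u}) (hC : ChiStmt.{u}) (hG : GenStmt.{u}) (hM : MomStmt.{u}) :
    BfoStmt.{u} := by
  intro Q _ K D hK hP
  obtain ⟨G, hGd⟩ : ∃ G : Set ℕ, ∀ N, N ∈ G ↔
      ∃ n : ℕ, N = n + 1 ∧ en K (n + 1) - en K n ≤ ((D : ℝ) + 1) / (n + 1) :=
    ⟨{N | ∃ n : ℕ, N = n + 1 ∧ en K (n + 1) - en K n ≤ ((D : ℝ) + 1) / (n + 1)}, fun _ => Iff.rfl⟩
  have hfr : ∃ᶠ N in atTop, N ∈ G := by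
    refine (tendsto_add_atTop_nat 1).frequently ((hG Q K D hK hP).mono ?_)
    intro n hn
    exact (hGd _).2 ⟨n, rfl, hn⟩
  have hne : NeBot (atTop ⊓ 𝓟 G) := frequently_mem_iff_neBot.1 hfr
  obtain ⟨U, hU⟩ : ∃ U : Ultrafilter ℕ, (U : Filter ℕ) ≤ atTop ⊓ 𝓟 G :=
    ⟨Ultrafilter.of (atTop ⊓ 𝓟 G), Ultrafilter.of_le _⟩
  have hUt : (U : Filter ℕ) ≤ atTop := hU.trans inf_le_left
  have hUG : ∀ᶠ N in (U : Filter ℕ), N ∈ G := by
    have : (U : Filter ℕ) ≤ 𝓟 G := hU.trans inf_le_right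
    exact this (mem_principal_self G)
  -- the limits
  have hex : ∀ f h : VV K, ∃ b : ℝ,
      Tendsto (fun n : ℕ => (av K)^[2 * n] (fun x => f.1 x * h.1 x) 1 / n) U (𝓝 b) := by
    intro f h
    obtain ⟨L, hL⟩ := f.2.2.2
    obtain ⟨M, hM'⟩ := h.2.2.2
    have hbd : ∀ n : ℕ, |(av K)^[2 * n] (fun x => f.1 x * h.1 x) 1 / n| ≤
        4 * L ^ 2 + 4 * M ^ 2 := by
      intro n
      rcases Nat.eq_zero_or_pos n with hn | hn
      · subst hn
        simp only [Nat.cast_zero, div_zero, abs_zero]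
        positivity
      · have hn' : (0 : ℝ) < n := by exact_mod_cast hn
        rw [abs_div, abs_of_pos hn', div_le_iff₀ hn']
        refine (eab hW hK (2 * n) f.1 h.1).trans ?_
        have h1 := (hM Q K hK f.1 f.2 L hL n).1
        have h2 := (hM Q K hK h.1 h.2 M hM' n).1
        calc _ ≤ 4 * L ^ 2 * n + 4 * M ^ 2 * n := add_le_add h1 h2
          _ = _ := by ring
    have hcp : IsCompact (Set.Icc (-(4 * L ^ 2 + 4 * M ^ 2)) (4 * L ^ 2 + 4 * M ^ 2)) :=
      isCompact_Icc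
    obtain ⟨b, _, hb⟩ := hcp.ultrafilter_le_nhds
      (U.map (fun n : ℕ => (av K)^[2 * n] (fun x => f.1 x * h.1 x) 1 / n)) (by
        rw [Filter.le_principal_iff, Ultrafilter.coe_map, Filter.mem_map]
        refine Filter.mem_of_superset Filter.univ_mem ?_
        intro n _
        exact abs_le.1 (hbd n))
    exact ⟨b, hb⟩
  choose B hB using hex
  obtain ⟨c, hc⟩ : ∃ c : ℝ, c = 4 * (K.card : ℝ) ^ 4 * (D + 1) := ⟨_, rfl⟩
  have hc0 : 0 ≤ c := by rw [hc]; positivity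
  -- squares
  have hBsq : ∀ f : VV K,
      Tendsto (fun n : ℕ => (av K)^[2 * n] (fun x => f.1 x ^ 2) 1 / n) U (𝓝 (B f f)) := by
    intro f
    have := hB f f
    simpa only [← pow_two] using this
  -- first consequence of CHI
  have hpos : ∀ f : VV K, ∀ s ∈ K, ∀ t ∈ K, f.1 (s * t) ^ 2 ≤ c * B f f := by
    intro f s hs t ht
    refine ge_of_tendsto ((hBsq f).const_mul c) (hUG.mono ?_)
    intro N hN
    obtain ⟨n, rfl, hn⟩ := (hGd N).1 hN
    have h1 := (hC Q K hK n).2 f.1 s hs t ht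
    rw [fixn f.2.2.1, fixn f.2.2.1, show f.1 1 = 0 from f.2.1, sub_zero] at h1
    have h2 : 0 ≤ (av K)^[2 * (n + 1)] (fun x => f.1 x ^ 2) 1 :=
      enn hW hK _ (fun x => sq_nonneg _) _
    refine h1.trans ?_
    rw [hc]
    have h3 : 4 * (K.card : ℝ) ^ 4 * (en K (n + 1) - en K n) ≤
        4 * (K.card : ℝ) ^ 4 * ((D + 1) / (n + 1)) :=
      mul_le_mul_of_nonneg_left hn (by positivity)
    refine (mul_le_mul_of_nonneg_right h3 h2).trans (le_of_eq ?_)
    push_cast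
    ring
  -- second consequence
  have hlim2 : ∀ f : VV K, ∀ s ∈ K, ∀ t ∈ K,
      Tendsto (fun N : ℕ => (av K)^[2 * (N - 1)] (fun x => f.1 x ^ 2) (s * t) / N) U
        (𝓝 (B f f)) := by
    intro f s hs t ht
    obtain ⟨L, hL⟩ := f.2.2.2
    have hd : Tendsto (fun N : ℕ => ((av K)^[2 * (N - 1)] (fun x => f.1 x ^ 2) (s * t) -
        (av K)^[2 * N] (fun x => f.1 x ^ 2) 1) / N) U (𝓝 0) := by
      have hsq : Tendsto (fun N : ℕ => √(c * (112 * L ^ 4) / N)) U (𝓝 0) := by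
        have := (Real.continuous_sqrt.tendsto 0).comp
          ((tendsto_const_div_atTop_nhds_zero_nat (c * (112 * L ^ 4))).mono_left hUt)
        rw [Real.sqrt_zero] at this
        exact this
      refine squeeze_zero_norm' (hUG.mono ?_) hsq
      intro N hN
      obtain ⟨n, rfl, hn⟩ := (hGd N).1 hN
      rw [Real.norm_eq_abs]
      apply Real.abs_le_sqrt
      have h1 := (hC Q K hK n).2 (fun x => f.1 x ^ 2) s hs t ht
      have hN' : (0 : ℝ) < ((n + 1 : ℕ) : ℝ) := by positivity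
      have h4 := (hM Q K hK f.1 f.2 L hL (n + 1)).2
      have h5 : (fun x => (fun x => f.1 x ^ 2) x ^ 2) = (fun x => f.1 x ^ 4) := by
        funext x
        ring
      rw [h5] at h1
      have h3 : 4 * (K.card : ℝ) ^ 4 * (en K (n + 1) - en K n) ≤
          4 * (K.card : ℝ) ^ 4 * ((D + 1) / (n + 1)) :=
        mul_le_mul_of_nonneg_left hn (by positivity)
      have h6 : 0 ≤ (av K)^[2 * (n + 1)] (fun x => f.1 x ^ 4) 1 :=
        enn hW hK _ (fun x => by positivity) _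
      rw [div_pow, div_le_div_iff₀ (by positivity) hN', Nat.add_sub_cancel]
      have h7 := h1.trans ((mul_le_mul_of_nonneg_right h3 h6).trans
        (mul_le_mul_of_nonneg_left h4 (by positivity)))
      refine (mul_le_mul_of_nonneg_right h7 hN'.le).trans (le_of_eq ?_)
      rw [hc]
      push_cast
      field_simp
    have := hd.add (hBsq f)
    rw [zero_add] at this
    refine this.congr (fun N => ?_)
    ring
  have hinv1 : ∀ s ∈ K, ∀ t ∈ K, ∀ f : VV K,
      B ⟨tr (s * t) f.1, tr_mem hK (s * t) f.2⟩ ⟨tr (s * t) f.1, tr_mem hK (s * t) f.2⟩ =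
        B f f := by
    intro s hs t ht f
    have h1 := hlim2 f s hs t ht
    have h2 := hlim2 ⟨tr (s * t) f.1, tr_mem hK (s * t) f.2⟩ 1 hK.one 1 hK.one
    rw [one_mul] at h2
    have h3 : Tendsto (fun N : ℕ => f.1 (s * t) ^ 2 / (N : ℝ)) U (𝓝 0) :=
      (tendsto_const_div_atTop_nhds_zero_nat (f.1 (s * t) ^ 2)).mono_left hUt
    have h4 := h3.add h2
    rw [zero_add] at h4
    refine tendsto_nhds_unique (h4.congr (fun N => ?_)) h1
    rw [exq hW hK (N - 1) f.2 (s * t)]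
    ring
  have htr : ∀ (g h : Q) (f : Q → ℝ), tr (g * h) f = tr h (tr g f) := by
    intro g h f
    funext x
    simp only [tr, mul_assoc]
    ring
  have htr1 : ∀ f : VV K, (⟨tr 1 f.1, tr_mem hK 1 f.2⟩ : VV K) = f := by
    intro f
    apply Subtype.ext
    funext x
    show f.1 (1 * x) - f.1 1 = f.1 x
    rw [one_mul, show f.1 1 = 0 from f.2.1, sub_zero]
  have hcong : ∀ f h : VV K, f.1 = h.1 → B f f = B h h := by
    intro f h e
    have : f = h := Subtype.ext e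
    rw [this]
  refine ⟨U, B, c, ⟨inferInstance, hUt, hB, hpos, ?_⟩⟩
  intro g
  have hg : g ∈ Subgroup.closure (K : Set Q) := by
    rw [hK.top]
    trivial
  induction hg using Subgroup.closure_induction with
  | mem x hx =>
    intro f
    have := hinv1 x hx 1 hK.one f
    refine Eq.trans (hcong _ _ ?_) this
    show tr x f.1 = tr (x * 1) f.1
    rw [mul_one]
  | one =>
    intro f
    rw [htr1]
  | mul x y _ _ ihx ihy =>
    intro f
    rw [← ihx f, ← ihy ⟨tr x f.1, tr_mem hK x f.2⟩]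
    exact hcong _ _ (htr x y f.1)
  | inv x _ ih =>
    intro f
    rw [← ih ⟨tr x⁻¹ f.1, tr_mem hK x⁻¹ f.2⟩]
    refine hcong _ _ ?_
    show tr x (tr x⁻¹ f.1) = f.1
    rw [← htr, inv_mul_cancel]
    exact congrArg Subtype.val (htr1 f)

end Pool.Agent.NGM.H92
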